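import Pool.Agent.Lib.MP_976fcd_nt.H33Val

set_option autoImplicit false

/-!
Divisibility of the truncated series by `2 n (2 n + 1) (2 n choose n)`.
-/

open Finset Nat

namespace R1103

lemma Sn_eq (n : ℕ) :
    Sn n = ∑ k ∈ range n, (1103 + 26390 * k) * Mk k * 396 ^ (4 * (n - k - 1)) := by
  induction n with
  | zero => rfl
  | succ n ih =>
    rw [Sn, sum_range_succ, ih, mul_sum]
    congr 1
    · refine sum_congr rfl fun k hk => ?_
      rw [show n + 1 - k - 1 = n - k - 1 + 1 by have := mem_range.1 hk; omega]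
      ring
    · simp

lemma dvd_head {p r k : ℕ} (hp : p.Prime) (h3 : 3 ≤ p) (hd : p ∣ 396) (h : p ^ r ∣ Dn (k + 1)) :
    p ^ r ∣ 396 ^ 4 * Sn k := by
  rw [Sn_eq, mul_sum]
  refine dvd_sum fun i hi => ?_
  obtain ⟨j, rfl⟩ := Nat.exists_eq_add_of_lt (mem_range.1 hi)
  refine (dvd_tail hp h3 hd i j h).trans ⟨1103 + 26390 * i, ?_⟩
  rw [show i + j + 1 - i - 1 = j by omega]
  ring

lemma dvd_of_last {p r k : ℕ} (hp : p.Prime) (h3 : 3 ≤ p) (hd : p ∣ 396) (h : p ^ r ∣ Dn (k + 1))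
    (hl : r ≤ (Mk k).factorization p) : p ^ r ∣ Sn (k + 1) :=
  (dvd_head hp h3 hd h).add (((hp.pow_dvd_iff_le_factorization (Mk_ne k)).2 hl).mul_left _)

lemma odd_part {p r n : ℕ} (hp : p.Prime) (h2 : p ≠ 2) (h : p ^ r ∣ 2 * n) : p ^ r ∣ n :=
  (((coprime_primes hp prime_two).2 h2).pow_left r).dvd_of_dvd_mul_left h

lemma dvd_ne_three {p r k : ℕ} (hk : 1 ≤ k) (hp : p.Prime) (h3 : p ≠ 3)
    (h : p ^ r ∣ 2 * Dn (k + 1)) : p ^ r ∣ Sn (k + 1) := by
  by_cases h2 : p = 2
  · subst h2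
    rw [Sn_eq]
    refine dvd_sum fun i hi => ?_
    obtain ⟨j, hj⟩ := Nat.exists_eq_add_of_le (Nat.lt_succ_iff.1 (mem_range.1 hi))
    have := two_step r j i 1 (by rw [← hj, mul_one]; exact last2 hk h)
    rw [show k + 1 - i - 1 = j by omega, mul_assoc]
    exact (mul_one (Mk i * 396 ^ (4 * j)) ▸ this).mul_left _
  have h4 := odd_part hp h2 h
  by_cases h11 : p = 11
  · subst h11
    exact dvd_of_last hp (by norm_num) (by norm_num) h4
      (((hp.pow_dvd_iff_le_factorization (Dn_ne k)).1 h4).trans (last11 k))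
  generalize k + 1 = n at h4
  by_cases h5 : p ∣ 2 * n + 1
  · have h6 : Nat.Coprime p n := (hp.coprime_iff_not_dvd).2 fun h6 =>
      hp.not_dvd_one ((Nat.dvd_add_right (h6.mul_left 2)).1 h5)
    have h7 : p ^ r ∣ (2 * n + 1) * centralBinom n :=
      (h6.pow_left r).dvd_of_dvd_mul_left (by rwa [Dn, mul_assoc] at h4)
    have h8 : p ^ r ∣ Sn (n + 1) := good hp h2 h3 h11 (by
      rw [succ_mul_centralBinom_succ, mul_assoc]; exact h7.mul_left _)
    have h9 : p ^ r ∣ (1103 + 26390 * n) * Mk n := by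
      refine (h7.trans ?_).mul_left _
      rw [Mk, mul_comm (2 * n + 1)]
      exact mul_dvd_mul_left _ ((succ_dvd_centralBinom (2 * n)).mul_left _)
    have h10 : Nat.Coprime p 396 := by
      rw [show 396 = 2 ^ 2 * 3 ^ 2 * 11 by norm_num]
      exact ((((coprime_primes hp prime_two).2 h2).pow_right 2).mul_right
        (((coprime_primes hp prime_three).2 h3).pow_right 2)).mul_right
        ((coprime_primes hp prime_eleven).2 h11)
    exact (h10.pow r 4).dvd_of_dvd_mul_left ((Nat.dvd_add_left h9).1 h8)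
  · refine good hp h2 h3 h11 ((((hp.coprime_iff_not_dvd).2 h5).pow_left r).dvd_of_dvd_mul_left ?_)
    rwa [Dn, mul_comm n, mul_assoc] at h4

theorem dvd_not_pow {k : ℕ} (hk : 1 ≤ k) (h : ¬∃ r, 2 * (k + 1) + 1 = 3 ^ r) :
    2 * Dn (k + 1) ∣ Sn (k + 1) := by
  refine (dvd_iff_prime_pow_dvd_dvd _ _).2 fun p r hp h1 => ?_
  by_cases h3 : p = 3
  · subst h3
    have h4 := odd_part hp (by norm_num) h1
    exact dvd_of_last hp (by norm_num) (by norm_num) h4
      (((hp.pow_dvd_iff_le_factorization (Dn_ne k)).1 h4).trans (last3_not hk h))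
  · exact dvd_ne_three hk hp h3 h1

theorem dvd_three_mul {k : ℕ} (hk : 1 ≤ k) : 2 * Dn (k + 1) ∣ 3 * Sn (k + 1) := by
  refine (dvd_iff_prime_pow_dvd_dvd _ _).2 fun p r hp h1 => ?_
  by_cases h3 : p = 3
  · subst h3
    have h4 := odd_part hp (by norm_num) h1
    have h5 := ((hp.pow_dvd_iff_le_factorization (Dn_ne k)).1 h4).trans (last3_le k)
    rcases r with _ | r
    · simp
    · rw [pow_succ']
      exact mul_dvd_mul_left _ (dvd_of_last hp (by norm_num) (by norm_num)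
        ((pow_dvd_pow 3 (Nat.le_succ r)).trans h4) (by omega))
  · exact (dvd_ne_three hk hp h3 h1).mul_left _

theorem not_dvd_pow {k r : ℕ} (h : 2 * (k + 1) + 1 = 3 ^ r) : ¬Dn (k + 1) ∣ Sn (k + 1) := by
  intro h1
  have h2 := ordProj_dvd (Dn (k + 1)) 3
  have h3 := (Nat.dvd_add_right (dvd_head prime_three (by norm_num) (by norm_num) h2)).1
    (h2.trans h1)
  have h4 : Nat.Coprime 3 (1103 + 26390 * k) := (prime_three.coprime_iff_not_dvd).2 (by
    rcases r with _ | r
    · omega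
    · rw [pow_succ] at h; omega)
  have h5 := (prime_three.pow_dvd_iff_le_factorization (Mk_ne k)).1
    ((h4.pow_left _).dvd_of_dvd_mul_left h3)
  have := last3_pow h
  omega

end R1103
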