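import Pool.Agent.Lib.MP_976fcd_nt.H33Res
import Pool.Agent.Lib.MP_976fcd_nt.H33Cert

set_option autoImplicit false

/-!
Divisibility of the truncated series at the primes other than `2`, `3` and `11`.
-/

open AddMonoidAlgebra Finset Nat

namespace R1103

section
variable {R : Type*} [CommRing R]

/-- The truncated central binomial series, made homogeneous. -/
def Tr (G : R) : ℕ → R
  | 0 => 0
  | n + 1 => 396 ^ 4 * Tr G n + centralBinom n * G ^ n

/-- Its derivative. -/
def Tr' (G : R) : ℕ → R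
  | 0 => 0
  | n + 1 => 396 ^ 4 * Tr' G n + n * centralBinom n * G ^ (n - 1)

lemma der_num (d : Derivation ℤ R R) : d (396 ^ 4) = 0 := by
  have := d.map_natCast (396 ^ 4)
  push_cast at this
  norm_num at this ⊢
  exact this

lemma der_Tr (d : Derivation ℤ R R) (G : R) (n : ℕ) : d (Tr G n) = Tr' G n * d G := by
  induction n with
  | zero => simp [Tr, Tr']
  | succ n ih =>
    simp only [Tr, Tr', map_add]
    rw [d.leibniz, d.leibniz, der_num, d.map_natCast, d.leibniz_pow, ih]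
    simp only [smul_eq_mul, nsmul_eq_mul]
    ring

lemma natCast_mul_pow (G : R) (n : ℕ) : (n : R) * G ^ (n - 1) * G = n * G ^ n := by
  cases n with
  | zero => simp
  | succ n => simp [pow_succ, mul_assoc]

lemma ode (G : R) (n : ℕ) :
    (396 ^ 4 - 4 * G) * Tr' G n - 2 * Tr G n = -((n * centralBinom n : ℕ) : R) * G ^ (n - 1) := by
  induction n with
  | zero => simp [Tr, Tr']
  | succ n ih =>
    rw [succ_mul_centralBinom_succ]
    simp only [Tr, Tr', Nat.add_sub_cancel]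
    push_cast at ih ⊢
    linear_combination 396 ^ 4 * ih - 4 * (centralBinom n : R) * natCast_mul_pow G n

end

/-- The coefficient `(4 k)! / (k!) ^ 4`. -/
def Mk (k : ℕ) : ℕ := centralBinom k * (centralBinom k * centralBinom (2 * k))

/-- The truncated series, made homogeneous. -/
def Sn : ℕ → ℕ
  | 0 => 0
  | n + 1 => 396 ^ 4 * Sn n + (1103 + 26390 * n) * Mk n

/-- The Laurent polynomial `x + 2 + 1 / x`. -/
noncomputable def Uv (e : ℤ × ℤ) : Rg := single e 1 + 2 + single (-e) 1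

/-- The Laurent polynomial `x - 1 / x`. -/
noncomputable def sv (e : ℤ × ℤ) : Rg := single e 1 - single (-e) 1

lemma single_mul_neg (e : ℤ × ℤ) : (single e 1 * single (-e) 1 : Rg) = 1 := by
  rw [single_mul_single, add_neg_cancel, mul_one]; rfl

lemma single_int (e : ℤ × ℤ) (c : ℤ) : (single e c : Rg) = (c : Rg) * single e 1 := by
  rw [intCast_def, single_mul_single]; simp

lemma th_two (l : ℤ × ℤ →+ ℤ) : th l 2 = 0 := by simpa using (th l).map_natCast 2

lemma th_Uv (l : ℤ × ℤ →+ ℤ) (e : ℤ × ℤ) : th l (Uv e) = (l e : Rg) * sv e := by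
  rw [Uv, sv, map_add, map_add, th_two, th_single, th_single, single_int e, single_int (-e)]
  simp only [map_neg, mul_one]
  push_cast
  ring

lemma th_sv (l : ℤ × ℤ →+ ℤ) (e : ℤ × ℤ) : th l (sv e) = (l e : Rg) * (Uv e - 2) := by
  rw [Uv, sv, map_sub, th_single, th_single, single_int e, single_int (-e)]
  simp only [map_neg, mul_one]
  push_cast
  ring

lemma sv_sq (e : ℤ × ℤ) : sv e ^ 2 = Uv e * (Uv e - 4) := by
  rw [Uv, sv]
  linear_combination (-4) * single_mul_neg e

lemma frame : Frame (th (AddMonoidHom.fst ℤ ℤ)) (th (AddMonoidHom.snd ℤ ℤ)) (Uv (1, 0)) (sv (1, 0))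
    (Uv (0, 1)) (sv (0, 1)) :=
  ⟨(th_Uv _ _).trans (by simp), (th_sv _ _).trans (by simp), (th_Uv _ _).trans (by simp),
    (th_Uv _ _).trans (by simp), (th_Uv _ _).trans (by simp), (th_sv _ _).trans (by simp),
    sv_sq _, sv_sq _⟩

lemma Uv_pow (e : ℤ × ℤ) (k : ℕ) : Uv e ^ k =
    ∑ i ∈ range (2 * k + 1), single (((i : ℤ) - k) • e) (((2 * k).choose i : ℕ) : ℤ) := by
  have h : Uv e = single (-e) 1 * (single e 1 + 1) ^ 2 := by
    rw [Uv]
    linear_combination (-(single e 1 : Rg) - 2) * single_mul_neg e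
  rw [h, mul_pow, ← pow_mul, add_pow, mul_sum]
  refine sum_congr rfl fun i _ => ?_
  rw [one_pow, mul_one, single_pow, single_pow, natCast_def, single_mul_single, single_mul_single]
  congr 1
  · rw [sub_smul, natCast_zsmul, natCast_zsmul, smul_neg]; abel
  · simp

lemma ct_pow (k : ℕ) : ((Uv (1, 0) * Uv (0, 1) ^ 2) ^ k).coeff 0 =
    ((centralBinom k * centralBinom (2 * k) : ℕ) : ℤ) := by
  rw [mul_pow, ← pow_mul, Uv_pow, Uv_pow, sum_mul_sum, coeff_sum, Finsupp.finset_sum_apply,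
    sum_eq_single_of_mem k (by simp; omega), coeff_sum, Finsupp.finset_sum_apply,
    sum_eq_single_of_mem (2 * k) (by simp; omega)]
  · simp [centralBinom_eq_two_mul_choose]
  · intro j _ hj
    rw [single_mul_single, coeff_single, Finsupp.single_eq_of_ne']
    simp [Prod.ext_iff]
    omega
  · intro i _ hi
    rw [coeff_sum, Finsupp.finset_sum_apply]
    refine sum_eq_zero fun j _ => ?_
    rw [single_mul_single, coeff_single, Finsupp.single_eq_of_ne']
    simp [Prod.ext_iff]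
    omega

lemma ct_Tr (n : ℕ) : (1103 * Tr (Uv (1, 0) * Uv (0, 1) ^ 2) n +
    26390 * (Uv (1, 0) * Uv (0, 1) ^ 2) * Tr' (Uv (1, 0) * Uv (0, 1) ^ 2) n).coeff 0 =
    (Sn n : ℤ) := by
  have hct := ct_pow
  generalize Uv (1, 0) * Uv (0, 1) ^ 2 = G at hct
  induction n with
  | zero => simp [Tr, Tr', Sn]
  | succ n ih =>
    have : 1103 * Tr G (n + 1) + 26390 * G * Tr' G (n + 1) =
        ((396 ^ 4 : ℕ) : Rg) * (1103 * Tr G n + 26390 * G * Tr' G n) +
          (((1103 + 26390 * n) * centralBinom n : ℕ) : Rg) * G ^ n := by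
      simp only [Tr, Tr']
      push_cast
      linear_combination 26390 * (centralBinom n : Rg) * natCast_mul_pow G n
    rw [this, coeff_add, Finsupp.add_apply, coeff_natCast_mul, coeff_natCast_mul, ih, hct]
    simp only [Sn, Mk]
    push_cast
    ring

/-- Evaluation at the point `(1, -1)`. -/
noncomputable def evp (p : ℕ) : Rg →+* ZMod p :=
  (lift ℤ (ZMod p) (ℤ × ℤ) ((Units.coeHom _).comp ((zpowersHom (ZMod p)ˣ (-1)).comp
    (AddMonoidHom.snd ℤ ℤ).toMultiplicative))).toRingHom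

lemma evp_single (p : ℕ) (e : ℤ × ℤ) :
    evp p (single e 1) = (((-1 : (ZMod p)ˣ) ^ e.2 : (ZMod p)ˣ) : ZMod p) := by
  simp [evp]

lemma evp_U (p : ℕ) : evp p (Uv (1, 0)) = 4 := by
  rw [Uv, map_add, map_add, evp_single, evp_single, map_ofNat]
  norm_num

lemma evp_w (p : ℕ) : evp p (Uv (0, 1)) = 0 := by
  rw [Uv, map_add, map_add, evp_single, evp_single, map_ofNat]
  norm_num

theorem good {p r n : ℕ} (hp : p.Prime) (h2 : p ≠ 2) (h3 : p ≠ 3) (h11 : p ≠ 11)
    (h : p ^ r ∣ n * centralBinom n) : p ^ r ∣ Sn n := by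
  haveI := Fact.mk hp
  rw [← Int.natCast_dvd_natCast, ← ct_Tr]
  refine residue hp (AddMonoidHom.fst ℤ ℤ) (AddMonoidHom.snd ℤ ℤ)
    (H := hh (Uv (1, 0)) (Uv (0, 1)) * (396 ^ 4 - 4 * (Uv (1, 0) * Uv (0, 1) ^ 2))) (evp p) ?_
    fun N hN => exact_mod frame (der_Tr _ _ n) (der_Tr _ _ n) ?_ (Nat.cast_dvd_cast hN)
  · have h1 : evp p (hh (Uv (1, 0)) (Uv (0, 1)) * (396 ^ 4 - 4 * (Uv (1, 0) * Uv (0, 1) ^ 2))) =
        -((2 ^ 40 * 3 ^ 60 * 11 ^ 14 : ℕ) : ZMod p) := by
      simp only [hh, map_mul, map_sub, map_pow, map_ev, evp_U, evp_w, map_ofNat]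
      simp only [lDn, lNn, ev, zero_mul]
      push_cast
      norm_num
    rw [h1, neg_ne_zero, Ne, ZMod.natCast_eq_zero_iff]
    intro h4
    rcases (hp.dvd_mul).1 h4 with h4 | h4
    · rcases (hp.dvd_mul).1 h4 with h4 | h4
      · exact h2 ((prime_dvd_prime_iff_eq hp prime_two).1 (hp.dvd_of_dvd_pow h4))
      · exact h3 ((prime_dvd_prime_iff_eq hp prime_three).1 (hp.dvd_of_dvd_pow h4))
    · exact h11 ((prime_dvd_prime_iff_eq hp prime_eleven).1 (hp.dvd_of_dvd_pow h4))
  · rw [ode]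
    exact ((Nat.cast_dvd_cast h).neg_right).mul_right _

end R1103
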