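import Mathlib

set_option autoImplicit false

/-!
Laurent polynomials in two variables, their logarithmic derivations, and the vanishing of the
constant term of a form that is exact away from a hypersurface.
-/

open AddMonoidAlgebra

namespace R1103

/-- Laurent polynomials in two variables over the integers. -/
abbrev Rg := AddMonoidAlgebra ℤ (ℤ × ℤ)

/-- Multiply every coefficient by the value of an additive map at the exponent. -/
noncomputable def thf (l : ℤ × ℤ →+ ℤ) (f : Rg) : Rg :=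
  .ofCoeff (Finsupp.onFinset f.coeff.support (fun a => l a * f.coeff a) fun _ h =>
    Finsupp.mem_support_iff.2 (right_ne_zero_of_mul h))

lemma thf_coeff (l : ℤ × ℤ →+ ℤ) (f : Rg) (a : ℤ × ℤ) : (thf l f).coeff a = l a * f.coeff a := rfl

lemma thf_add (l : ℤ × ℤ →+ ℤ) (f g : Rg) : thf l (f + g) = thf l f + thf l g := by
  ext a; simp [thf_coeff, mul_add]

lemma thf_zero (l : ℤ × ℤ →+ ℤ) : thf l 0 = 0 := by
  ext a; simp [thf_coeff]

lemma thf_single (l : ℤ × ℤ →+ ℤ) (a : ℤ × ℤ) (c : ℤ) :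
    thf l (single a c) = single a (l a * c) := by
  ext b
  simp only [thf_coeff, coeff_single, Finsupp.single_apply]
  split_ifs with h
  · rw [h]
  · simp

lemma thf_mul (l : ℤ × ℤ →+ ℤ) (f g : Rg) : thf l (f * g) = f * thf l g + g * thf l f := by
  induction f using AddMonoidAlgebra.induction_linear with
  | zero => simp [thf_zero]
  | add a b ha hb => rw [add_mul, thf_add, ha, hb, thf_add]; ring
  | single a c =>
    induction g using AddMonoidAlgebra.induction_linear with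
    | zero => simp [thf_zero]
    | add a b ha hb => rw [mul_add, thf_add, ha, hb, thf_add]; ring
    | single b d =>
      simp only [single_mul_single, thf_single, map_add]
      rw [add_comm b a, ← single_add]
      congr 1
      ring

/-- The logarithmic derivation attached to an additive map. -/
noncomputable def th (l : ℤ × ℤ →+ ℤ) : Derivation ℤ Rg Rg :=
  Derivation.mk' (AddMonoidHom.mk' (thf l) (thf_add l)).toIntLinearMap (thf_mul l)

lemma th_coeff (l : ℤ × ℤ →+ ℤ) (f : Rg) (a : ℤ × ℤ) : (th l f).coeff a = l a * f.coeff a := rfl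

lemma th_single (l : ℤ × ℤ →+ ℤ) (a : ℤ × ℤ) (c : ℤ) : th l (single a c) = single a (l a * c) :=
  thf_single l a c

/-- Substitute the `q`-th powers of the variables. -/
noncomputable def fr (q : ℕ) : Rg →+* Rg := mapDomainRingHom ℤ (nsmulAddMonoidHom q)

lemma fr_single (q : ℕ) (a : ℤ × ℤ) (c : ℤ) : fr q (single a c) = single (q • a) c :=
  mapDomain_single

lemma coeff_natCast_mul (n : ℕ) (f : Rg) (a : ℤ × ℤ) : ((n : Rg) * f).coeff a = n * f.coeff a := by
  rw [← nsmul_eq_mul, ← nsmul_eq_mul]; rfl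

lemma dvd_coeff {n : ℕ} {f : Rg} (h : (n : Rg) ∣ f) (a : ℤ × ℤ) : (n : ℤ) ∣ f.coeff a := by
  obtain ⟨g, rfl⟩ := h
  rw [coeff_natCast_mul]
  exact dvd_mul_right _ _

lemma dvd_of_coeff {n : ℕ} {f : Rg} (h : ∀ a, (n : ℤ) ∣ f.coeff a) : (n : Rg) ∣ f := by
  refine ⟨.ofCoeff (f.coeff.mapRange (· / (n : ℤ)) (by simp)), ?_⟩
  ext a
  rw [coeff_natCast_mul]
  exact (Int.mul_ediv_cancel' (h a)).symm

lemma frob {p : ℕ} (hp : p.Prime) (j : ℕ) (f : Rg) : (p : Rg) ∣ f ^ p ^ j - fr (p ^ j) f := by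
  induction f using AddMonoidAlgebra.induction_linear with
  | zero => simp [zero_pow (pow_pos hp.pos j).ne']
  | add a b ha hb =>
    obtain ⟨r, hr⟩ := exists_add_pow_prime_pow_eq hp a b j
    rw [hr, map_add]
    have : a ^ p ^ j + b ^ p ^ j + p * a * b * r - (fr (p ^ j) a + fr (p ^ j) b) =
        (a ^ p ^ j - fr (p ^ j) a) + (b ^ p ^ j - fr (p ^ j) b) + p * (a * b * r) := by ring
    rw [this]
    exact (ha.add hb).add (dvd_mul_right _ _)
  | single a c =>
    haveI := Fact.mk hp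
    rw [single_pow, fr_single, ← single_sub]
    have : (p : ℤ) ∣ c ^ p ^ j - c := (ZMod.intCast_zmod_eq_zero_iff_dvd _ p).1 (by
      push_cast
      rw [ZMod.pow_card_pow, sub_self])
    refine dvd_of_coeff fun b => ?_
    rw [coeff_single, Finsupp.single_apply]
    split_ifs
    · exact this
    · exact dvd_zero _

lemma coeff_fr_mul (q : ℕ) {F : Rg} (hF : ∀ a, a ≠ 0 → F.coeff (q • a) = 0) (K : Rg) (a : ℤ × ℤ) :
    (fr q K * F).coeff (q • a) = K.coeff a * F.coeff 0 := by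
  induction K using AddMonoidAlgebra.induction_linear with
  | zero => simp
  | add x y hx hy => rw [map_add, add_mul, coeff_add, Finsupp.add_apply, hx, hy]; simp [add_mul]
  | single b c =>
    rw [fr_single, coeff_single_mul_apply, coeff_single, Finsupp.single_apply, ← smul_neg,
      ← smul_add]
    split_ifs with h
    · simp [h]
    · rw [hF _ fun h' => h (neg_add_eq_zero.1 h')]; simp

lemma exists_exp {p : ℕ} (hp : p.Prime) (F : Rg) (r : ℕ) :
    ∃ j, r ≤ j ∧ ∀ a, a ≠ 0 → F.coeff (p ^ j • a) = 0 := by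
  let B := F.coeff.support.sup fun a => a.1.natAbs + a.2.natAbs
  refine ⟨B + r, by omega, fun a ha => ?_⟩
  by_contra h
  have h1 : (p ^ (B + r) • a).1.natAbs + (p ^ (B + r) • a).2.natAbs ≤ B :=
    Finset.le_sup (f := fun a : ℤ × ℤ => a.1.natAbs + a.2.natAbs) (Finsupp.mem_support_iff.2 h)
  have h2 : B + r < p ^ (B + r) := Nat.lt_pow_self hp.one_lt
  rw [Prod.smul_fst, Prod.smul_snd, nsmul_eq_mul, nsmul_eq_mul, Int.natAbs_mul, Int.natAbs_mul,
    Int.natAbs_natCast] at h1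
  have h3 : 1 ≤ a.1.natAbs + a.2.natAbs := by
    by_contra h4
    exact ha (Prod.ext (by simp; omega) (by simp; omega))
  nlinarith

theorem residue {p r : ℕ} (hp : p.Prime) (l₁ l₂ : ℤ × ℤ →+ ℤ) {H Φ : Rg} (ev : Rg →+* ZMod p)
    (hev : ev H ≠ 0) (hX : ∀ N : ℕ, p ^ r ∣ N + 2 → ∃ X Y : Rg,
      ((p ^ r : ℕ) : Rg) ∣ H ^ (N + 2) * Φ - (th l₁ X - th l₂ Y)) :
    ((p ^ r : ℕ) : ℤ) ∣ Φ.coeff 0 := by
  haveI := Fact.mk hp
  obtain ⟨j, hj, hF⟩ := exists_exp hp Φ (r + 1)
  have h2 : 2 ≤ p ^ j * p ^ r := by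
    have := Nat.le_self_pow (n := j) (by omega) p
    have := hp.two_le
    nlinarith [pow_pos hp.pos r]
  obtain ⟨N, hN⟩ := Nat.exists_eq_add_of_le' h2
  obtain ⟨X, Y, h3⟩ := hX N (hN ▸ dvd_mul_left _ _)
  have h4 : ((p ^ r : ℕ) : Rg) ∣ H ^ (N + 2) - fr (p ^ j) (H ^ p ^ r) := by
    have := dvd_sub_pow_of_dvd_sub (frob hp j H) r
    rw [← pow_mul, hN, ← map_pow] at this
    refine dvd_trans ?_ this
    push_cast
    exact pow_dvd_pow _ (by omega)
  obtain ⟨a, ha⟩ : ∃ a, ¬(p : ℤ) ∣ (H ^ p ^ r).coeff a := by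
    by_contra h
    push Not at h
    obtain ⟨g, hg⟩ := dvd_of_coeff h
    have := congrArg ev hg
    rw [map_pow, map_mul, map_natCast, ZMod.natCast_self, zero_mul] at this
    exact hev (pow_eq_zero_iff (pow_pos hp.pos r).ne' |>.1 this)
  have h5 : ((p ^ r : ℕ) : Rg) ∣ fr (p ^ j) (H ^ p ^ r) * Φ - (th l₁ X - th l₂ Y) := by
    have := h3.sub (h4.mul_right Φ)
    convert this using 1
    ring
  have h6 := dvd_coeff h5 (p ^ j • a)
  rw [coeff_sub, coeff_sub, Finsupp.sub_apply, Finsupp.sub_apply, coeff_fr_mul _ hF, th_coeff,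
    th_coeff, map_nsmul l₁, map_nsmul l₂, nsmul_eq_mul _ (l₁ a), nsmul_eq_mul _ (l₂ a)] at h6
  have h7 : ((p ^ r : ℕ) : ℤ) ∣ ((p ^ j : ℕ) : ℤ) :=
    Int.natCast_dvd_natCast.2 (pow_dvd_pow _ (by omega))
  have h8 := h6.add (((h7.mul_right (l₁ a)).mul_right (X.coeff (p ^ j • a))).sub
    ((h7.mul_right (l₂ a)).mul_right (Y.coeff (p ^ j • a))))
  rw [sub_add_cancel] at h8
  refine IsCoprime.dvd_of_dvd_mul_left ?_ h8
  push_cast
  exact ((Nat.prime_iff_prime_int.1 hp).irreducible.coprime_iff_not_dvd.2 ha).pow_left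

end R1103
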