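import Pool.Agent.Lib.MP_976fcd_nt.H33Good

set_option autoImplicit false

/-!
Valuations of the terms of the truncated series at the primes `2`, `3` and `11`.
-/

open Finset Nat

namespace R1103

/-- The odd part of the claimed divisor, up to a power of two. -/
def Dn (n : ℕ) : ℕ := n * (2 * n + 1) * centralBinom n

lemma cb_mul (k : ℕ) : centralBinom k * (k ! * k !) = (2 * k)! := by
  rw [centralBinom_eq_two_mul_choose, two_mul, ← add_choose_mul_factorial_mul_factorial k k]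
  ring

lemma Mk_mul (k : ℕ) : Mk k * k ! ^ 4 = (4 * k)! := by
  rw [show 4 * k = 2 * (2 * k) by ring, ← cb_mul (2 * k), ← cb_mul k, Mk]
  ring

lemma Dn_mul (n : ℕ) : Dn (n + 1) * ((n + 1)! * n !) = (2 * n + 3)! := by
  rw [show 2 * n + 3 = 2 * (n + 1) + 1 by ring, factorial_succ (2 * (n + 1)), ← cb_mul (n + 1), Dn]
  conv_rhs => rw [factorial_succ n]
  rw [factorial_succ n]
  ring

lemma Mk_ne (k : ℕ) : Mk k ≠ 0 := fun h => by
  have := Mk_mul k
  rw [h, zero_mul] at this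
  exact factorial_ne_zero _ this.symm

lemma Dn_ne (n : ℕ) : Dn (n + 1) ≠ 0 := fun h => by
  have := Dn_mul n
  rw [h, zero_mul] at this
  exact factorial_ne_zero _ this.symm

/-- The contribution of a prime power to the valuation of `Mk`. -/
def eP (P k : ℕ) : ℤ := ((4 * k / P : ℕ) : ℤ) - 4 * ((k / P : ℕ) : ℤ)

/-- The contribution of a prime power to the valuation of `Dn (n + 1)`. -/
def fP (P n : ℕ) : ℤ := (((2 * n + 3) / P : ℕ) : ℤ) - (((n + 1) / P : ℕ) : ℤ) - ((n / P : ℕ) : ℤ)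

lemma fac_fac {p : ℕ} (hp : p.Prime) {x b : ℕ} (h : x < b) :
    (x)!.factorization p = ∑ i ∈ Ico 1 b, x / p ^ i :=
  factorization_factorial hp ((log_le_self p x).trans_lt h)

lemma fac_Mk {p : ℕ} (hp : p.Prime) {k b : ℕ} (h : 4 * k < b) :
    ((Mk k).factorization p : ℤ) = ∑ i ∈ Ico 1 b, eP (p ^ i) k := by
  have h1 := congrArg (fun x => (x.factorization p : ℤ)) (Mk_mul k)
  simp only [Nat.factorization_mul (Mk_ne k) (pow_ne_zero 4 (factorial_ne_zero k)),
    Nat.factorization_pow,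
    Finsupp.add_apply, Finsupp.smul_apply, smul_eq_mul, fac_fac hp h,
    fac_fac hp (show k < b by omega)] at h1
  simp only [eP, sum_sub_distrib, ← mul_sum, ← Nat.cast_sum]
  omega

lemma fac_Dn {p : ℕ} (hp : p.Prime) {n b : ℕ} (h : 2 * n + 3 < b) :
    ((Dn (n + 1)).factorization p : ℤ) = ∑ i ∈ Ico 1 b, fP (p ^ i) n := by
  have h1 := congrArg (fun x => (x.factorization p : ℤ)) (Dn_mul n)
  simp only [Nat.factorization_mul (Dn_ne n)
    (mul_ne_zero (factorial_ne_zero _) (factorial_ne_zero n)),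
    Nat.factorization_mul (factorial_ne_zero (n + 1)) (factorial_ne_zero n),
    Finsupp.add_apply, fac_fac hp h, fac_fac hp (show n + 1 < b by omega),
    fac_fac hp (show n < b by omega)] at h1
  simp only [fP, sum_sub_distrib, ← Nat.cast_sum]
  omega

lemma div_split {P : ℕ} (hP : 0 < P) (c q x : ℕ) : (P * (c * q) + x) / P = c * q + x / P := by
  rw [Nat.mul_add_div hP]

lemma eP_nonneg (P k : ℕ) : 0 ≤ eP P k := by
  have := Nat.mul_div_le_mul_div_assoc 4 k P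
  unfold eP
  omega

lemma fP_le_one {P : ℕ} (hP : 2 ≤ P) (n : ℕ) : fP P n ≤ 1 := by
  obtain ⟨q, ρ, hρ, rfl⟩ : ∃ q ρ, ρ < P ∧ n = P * q + ρ :=
    ⟨n / P, n % P, Nat.mod_lt _ (by omega), (Nat.div_add_mod n P).symm⟩
  have h0 : 0 < P := by omega
  unfold fP
  rw [show 2 * (P * q + ρ) + 3 = P * (2 * q) + (2 * ρ + 3) by ring, div_split h0, add_assoc,
    Nat.mul_add_div h0, Nat.mul_add_div h0]
  rcases lt_or_ge (ρ + 1) P with h | h
  · have : (2 * ρ + 3) / P < 2 := (Nat.div_lt_iff_lt_mul h0).2 (by omega)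
    generalize (ρ + 1) / P = x, ρ / P = y
    omega
  · have h1 : (2 * ρ + 3) / P < 3 := (Nat.div_lt_iff_lt_mul h0).2 (by omega)
    have h2 : 1 ≤ (ρ + 1) / P := (Nat.le_div_iff_mul_le h0).2 (by omega)
    generalize ρ / P = y
    omega

lemma fP_le_eP {P j : ℕ} (hP : 4 * j + 6 ≤ P) (k : ℕ) : fP P (k + j) ≤ eP P k := by
  obtain ⟨q, ρ, hρ, rfl⟩ : ∃ q ρ, ρ < P ∧ k = P * q + ρ :=
    ⟨k / P, k % P, Nat.mod_lt _ (by omega), (Nat.div_add_mod k P).symm⟩
  have h0 : 0 < P := by omega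
  unfold fP eP
  rw [show 2 * (P * q + ρ + j) + 3 = P * (2 * q) + (2 * ρ + 2 * j + 3) by ring, div_split h0,
    show 4 * (P * q + ρ) = P * (4 * q) + 4 * ρ by ring, div_split h0, add_assoc (P * q),
    add_assoc (P * q), Nat.mul_add_div h0, Nat.mul_add_div h0, Nat.mul_add_div h0,
    Nat.div_eq_of_lt hρ]
  have h1 : (2 * ρ + 2 * j + 3) / P < 3 := (Nat.div_lt_iff_lt_mul h0).2 (by omega)
  have h2 : 1 ≤ (2 * ρ + 2 * j + 3) / P → 1 ≤ 4 * ρ / P := fun h =>
    (Nat.le_div_iff_mul_le h0).2 (by have := (Nat.le_div_iff_mul_le h0).1 h; omega)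
  have h3 : 2 ≤ (2 * ρ + 2 * j + 3) / P → 2 ≤ 4 * ρ / P := fun h =>
    (Nat.le_div_iff_mul_le h0).2 (by have := (Nat.le_div_iff_mul_le h0).1 h; omega)
  generalize (ρ + j + 1) / P = x, (ρ + j) / P = y, 4 * ρ / P = z at h2 h3 ⊢
  omega

lemma lin_le_pow {p : ℕ} (hp : 3 ≤ p) (i : ℕ) : 2 * i + 1 ≤ p ^ i := by
  induction i with
  | zero => simp
  | succ i ih => rw [pow_succ]; nlinarith

lemma val_tail {p : ℕ} (hp : p.Prime) (h3 : 3 ≤ p) (k j : ℕ) :
    (Dn (k + j + 1)).factorization p ≤ (Mk k).factorization p + (2 * j + 2) := by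
  have h1 := fac_Mk hp (show 4 * k < 4 * (k + j) + 4 by omega)
  have h2 := fac_Dn hp (show 2 * (k + j) + 3 < 4 * (k + j) + 4 by omega)
  have h4 : ∑ i ∈ Ico 1 (4 * (k + j) + 4), fP (p ^ i) (k + j) ≤
      ∑ i ∈ Ico 1 (4 * (k + j) + 4), (eP (p ^ i) k + if i ∈ Icc 1 (2 * j + 2) then 1 else 0) := by
    refine sum_le_sum fun i hi => ?_
    have h5 := lin_le_pow h3 i
    rw [mem_Ico] at hi
    split_ifs with h
    · have := fP_le_one (P := p ^ i) (by omega) (k + j)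
      have := eP_nonneg (p ^ i) k
      omega
    · rw [mem_Icc] at h
      have := fP_le_eP (P := p ^ i) (j := j) (by omega) k
      omega
  rw [sum_add_distrib, sum_ite_mem, sum_const, nsmul_eq_mul, mul_one] at h4
  have h5 := card_le_card (inter_subset_right (s₁ := Ico 1 (4 * (k + j) + 4))
    (s₂ := Icc 1 (2 * j + 2)))
  rw [card_Icc] at h5
  omega

lemma dvd_tail {p : ℕ} (hp : p.Prime) (h3 : 3 ≤ p) (hd : p ∣ 396) {r : ℕ} (k j : ℕ)
    (h : p ^ r ∣ Dn (k + (j + 1) + 1)) : p ^ r ∣ Mk k * 396 ^ (4 * (j + 1)) := by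
  have h1 := (hp.pow_dvd_iff_le_factorization (Dn_ne _)).1 h
  have h2 := val_tail hp h3 k (j + 1)
  refine (pow_dvd_pow p (show r ≤ (Mk k).factorization p + 4 * (j + 1) by omega)).trans ?_
  rw [pow_add]
  exact mul_dvd_mul (ordProj_dvd _ _) (pow_dvd_pow_of_dvd hd _)

lemma last11 (k : ℕ) : (Dn (k + 1)).factorization 11 ≤ (Mk k).factorization 11 := by
  have h1 := fac_Mk prime_eleven (show 4 * k < 4 * k + 4 by omega)
  have h2 := fac_Dn prime_eleven (show 2 * k + 3 < 4 * k + 4 by omega)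
  have h4 : ∑ i ∈ Ico 1 (4 * k + 4), fP (11 ^ i) k ≤ ∑ i ∈ Ico 1 (4 * k + 4), eP (11 ^ i) k := by
    refine sum_le_sum fun i hi => fP_le_eP (j := 0) ?_ k
    have := Nat.le_self_pow (n := i) (by have := mem_Ico.1 hi; omega) 11
    omega
  omega

lemma nine_le {i : ℕ} (h : 2 ≤ i) : 4 * 0 + 6 ≤ 3 ^ i :=
  le_trans (by norm_num) (Nat.pow_le_pow_right (by norm_num) h)

lemma last3_le (k : ℕ) : (Dn (k + 1)).factorization 3 ≤ (Mk k).factorization 3 + 1 := by
  have h1 := fac_Mk prime_three (show 4 * k < 4 * k + 4 by omega)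
  have h2 := fac_Dn prime_three (show 2 * k + 3 < 4 * k + 4 by omega)
  have h4 : ∑ i ∈ Ico 1 (4 * k + 4), fP (3 ^ i) k ≤
      ∑ i ∈ Ico 1 (4 * k + 4), (eP (3 ^ i) k + if i = 1 then 1 else 0) := by
    refine sum_le_sum fun i hi => ?_
    rw [mem_Ico] at hi
    split_ifs with h
    · have := fP_le_one (P := 3 ^ i) (by subst h; norm_num) k
      have := eP_nonneg (3 ^ i) k
      omega
    · have := fP_le_eP (j := 0) (nine_le (i := i) (by omega)) k
      simpa using this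
  rw [sum_add_distrib, sum_ite_eq', if_pos (mem_Ico.2 (by omega))] at h4
  omega

lemma surplus {k : ℕ} (hk : k % 3 = 0) (h1 : 1 ≤ k) (h : ¬∃ r, 2 * (k + 1) + 1 = 3 ^ r) :
    ∃ i, 2 ≤ i ∧ i < 4 * k + 4 ∧ fP (3 ^ i) k + 1 ≤ eP (3 ^ i) k := by
  have h2 : 3 ^ log 3 (2 * k + 3) ≤ 2 * k + 3 := pow_log_le_self 3 (by omega)
  have h3 : 2 * k + 3 < 3 ^ (log 3 (2 * k + 3) + 1) := lt_pow_succ_log_self (by norm_num) _
  have h4 : 2 ≤ log 3 (2 * k + 3) := le_log_of_pow_le (by norm_num) (by omega)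
  have h5 : log 3 (2 * k + 3) ≤ 2 * k + 2 := by
    have := lin_le_pow (le_refl 3) (log 3 (2 * k + 3))
    omega
  generalize log 3 (2 * k + 3) = s at h2 h3 h4 h5
  have h6 : 2 * k + 3 ≠ 3 ^ s := fun h' => h ⟨s, by omega⟩
  have h7 : 3 ^ s % 2 = 1 := by rw [Nat.pow_mod]; simp
  have h8 : 3 ^ s % 3 = 0 := by
    obtain ⟨t, rfl⟩ := Nat.exists_eq_add_of_le' h4
    rw [pow_succ]; omega
  have h0 : 0 < 3 ^ s := by positivity
  rcases lt_or_ge (k + 1) (3 ^ s) with hc | hc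
  · refine ⟨s, h4, by omega, ?_⟩
    unfold fP eP
    rw [Nat.div_eq_of_lt hc, Nat.div_eq_of_lt (show k < 3 ^ s by omega)]
    have : (2 * k + 3) / 3 ^ s < 2 := (Nat.div_lt_iff_lt_mul h0).2 (by omega)
    have : 2 ≤ 4 * k / 3 ^ s := (Nat.le_div_iff_mul_le h0).2 (by omega)
    omega
  · refine ⟨s + 1, by omega, by omega, ?_⟩
    unfold fP eP
    rw [Nat.div_eq_of_lt h3, Nat.div_eq_of_lt (show k < 3 ^ (s + 1) by omega),
      Nat.div_eq_of_lt (show k + 1 < 3 ^ (s + 1) by omega)]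
    have : 1 ≤ 4 * k / 3 ^ (s + 1) := (Nat.le_div_iff_mul_le (by positivity)).2 (by
      rw [pow_succ]; omega)
    omega

lemma last3_not {k : ℕ} (h1 : 1 ≤ k) (h : ¬∃ r, 2 * (k + 1) + 1 = 3 ^ r) :
    (Dn (k + 1)).factorization 3 ≤ (Mk k).factorization 3 := by
  have h2 := fac_Mk prime_three (show 4 * k < 4 * k + 4 by omega)
  have h3 := fac_Dn prime_three (show 2 * k + 3 < 4 * k + 4 by omega)
  by_cases hk : k % 3 = 0
  · obtain ⟨i₀, h4, h5, h6⟩ := surplus hk h1 h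
    have h7 : ∑ i ∈ Ico 1 (4 * k + 4), (fP (3 ^ i) k + if i = i₀ then 1 else 0) ≤
        ∑ i ∈ Ico 1 (4 * k + 4), (eP (3 ^ i) k + if i = 1 then 1 else 0) := by
      refine sum_le_sum fun i hi => ?_
      rw [mem_Ico] at hi
      by_cases h8 : i = 1
      · have := fP_le_one (P := 3 ^ i) (by subst h8; norm_num) k
        have := eP_nonneg (3 ^ i) k
        rw [if_neg (by omega), if_pos h8]
        omega
      · have := fP_le_eP (j := 0) (nine_le (i := i) (by omega)) k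
        rw [if_neg h8]
        split_ifs with h9
        · subst h9; omega
        · simpa using this
    rw [sum_add_distrib, sum_add_distrib, sum_ite_eq', sum_ite_eq', if_pos (mem_Ico.2 (by omega)),
      if_pos (mem_Ico.2 (by omega))] at h7
    omega
  · have h7 : ∑ i ∈ Ico 1 (4 * k + 4), fP (3 ^ i) k ≤ ∑ i ∈ Ico 1 (4 * k + 4), eP (3 ^ i) k := by
      refine sum_le_sum fun i hi => ?_
      rw [mem_Ico] at hi
      by_cases h8 : i = 1
      · subst h8
        unfold fP eP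
        obtain ⟨q, rfl | rfl⟩ : ∃ q, k = 3 * q + 1 ∨ k = 3 * q + 2 := ⟨k / 3, by omega⟩ <;> omega
      · exact fP_le_eP (j := 0) (nine_le (i := i) (by omega)) k
    omega

lemma last3_pow {k r : ℕ} (h : 2 * (k + 1) + 1 = 3 ^ r) :
    (Mk k).factorization 3 < (Dn (k + 1)).factorization 3 := by
  have h2 := fac_Mk prime_three (show 4 * k < 4 * k + 4 by omega)
  have h3 := fac_Dn prime_three (show 2 * k + 3 < 4 * k + 4 by omega)
  have hr : 1 ≤ r := by
    rcases r with _ | r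
    · omega
    · omega
  have hk : k % 3 = 0 := by
    obtain ⟨t, rfl⟩ := Nat.exists_eq_add_of_le' hr
    rw [pow_succ] at h; omega
  have h7 : ∑ i ∈ Ico 1 (4 * k + 4), eP (3 ^ i) k < ∑ i ∈ Ico 1 (4 * k + 4), fP (3 ^ i) k := by
    refine sum_lt_sum (fun i hi => ?_) ⟨1, mem_Ico.2 (by omega), by unfold fP eP; omega⟩
    rw [mem_Ico] at hi
    have h0 : 0 < 3 ^ i := by positivity
    unfold fP eP
    rcases le_or_gt i r with hc | hc
    · obtain ⟨t, rfl⟩ := Nat.exists_eq_add_of_le hc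
      have h4 : 3 ^ i % 2 = 1 := by rw [Nat.pow_mod]; simp
      have h5 : 3 ^ t % 2 = 1 := by rw [Nat.pow_mod]; simp
      have h6 := lin_le_pow (le_refl 3) i
      obtain ⟨u, hu⟩ : ∃ u, 3 ^ i = 2 * u + 3 := ⟨(3 ^ i - 3) / 2, by omega⟩
      obtain ⟨s, hs⟩ : ∃ s, 3 ^ t = 2 * s + 1 := ⟨3 ^ t / 2, by omega⟩
      have h8 : k = 3 ^ i * s + u := by
        rw [pow_add, hs, mul_add (3 ^ i), mul_left_comm] at h
        omega
      generalize 3 ^ i = P at *
      rw [h8, show 2 * (P * s + u) + 3 = P * (2 * s) + P by rw [hu]; ring, div_split h0,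
        show 4 * (P * s + u) = P * (4 * s) + 4 * u by ring, div_split h0, add_assoc (P * s),
        Nat.mul_add_div h0, Nat.mul_add_div h0, Nat.div_self h0,
        Nat.div_eq_of_lt (show u < P by omega), Nat.div_eq_of_lt (show u + 1 < P by omega)]
      have : 4 * u / P < 2 := (Nat.div_lt_iff_lt_mul h0).2 (by omega)
      omega
    · have h4 : 3 ^ (r + 1) ≤ 3 ^ i := Nat.pow_le_pow_right (by norm_num) hc
      rw [pow_succ] at h4
      rw [Nat.div_eq_of_lt (show 4 * k < 3 ^ i by omega), Nat.div_eq_of_lt (show k < 3 ^ i by omega),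
        Nat.div_eq_of_lt (show k + 1 < 3 ^ i by omega),
        Nat.div_eq_of_lt (show 2 * k + 3 < 3 ^ i by omega)]
      simp
  omega

lemma Mk_succ (k : ℕ) : (k + 1) ^ 3 * Mk (k + 1) =
    8 * Mk k * ((2 * k + 1) * (4 * k + 1) * (4 * k + 3)) := by
  have h1 := Mk_mul (k + 1)
  rw [show 4 * (k + 1) = 4 * k + 1 + 1 + 1 + 1 by ring, factorial_succ (4 * k + 1 + 1 + 1),
    factorial_succ (4 * k + 1 + 1), factorial_succ (4 * k + 1), factorial_succ (4 * k), factorial_succ k, ← Mk_mul k] at h1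
  refine Nat.eq_of_mul_eq_mul_right (show 0 < (k + 1) * k ! ^ 4 by positivity) ?_
  linear_combination h1

lemma two_step (r j : ℕ) : ∀ k X, 2 ^ r ∣ Mk (k + j) * X → 2 ^ r ∣ Mk k * 396 ^ (4 * j) * X := by
  induction j with
  | zero => intro k X h; simpa using h
  | succ j ih =>
    intro k X h
    have h1 := (ih (k + 1) X (by rwa [add_assoc, add_comm 1 j])).mul_left ((k + 1) ^ 3)
    rw [← mul_assoc, ← mul_assoc, Mk_succ, show 8 * Mk k * ((2 * k + 1) * (4 * k + 1) * (4 * k + 3)) *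
      396 ^ (4 * j) * X = 8 * Mk k * 396 ^ (4 * j) * X * ((2 * k + 1) * (4 * k + 1) * (4 * k + 3))
      by ring] at h1
    have h2 : Nat.Coprime (2 ^ r) ((2 * k + 1) * (4 * k + 1) * (4 * k + 3)) := by
      refine Nat.Coprime.pow_left _ (Nat.coprime_two_left.2 ?_)
      exact (Odd.mul ⟨k, rfl⟩ ⟨2 * k, by ring⟩).mul ⟨2 * k + 1, by ring⟩
    refine (h2.dvd_of_dvd_mul_right h1).trans ⟨396 ^ 4 / 8, ?_⟩
    rw [mul_add, pow_add]
    norm_num
    ring

lemma last2 {r k : ℕ} (hk : 1 ≤ k) (h : 2 ^ r ∣ 2 * Dn (k + 1)) : 2 ^ r ∣ Mk k := by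
  have h1 : 2 * Dn (k + 1) = 4 * centralBinom k * ((2 * k + 1) * (2 * (k + 1) + 1)) := by
    rw [Dn, mul_right_comm (k + 1), succ_mul_centralBinom_succ]; ring
  rw [h1] at h
  have h2 : Nat.Coprime (2 ^ r) ((2 * k + 1) * (2 * (k + 1) + 1)) :=
    Nat.Coprime.pow_left _ (Nat.coprime_two_left.2 (Odd.mul ⟨k, rfl⟩ ⟨k + 1, rfl⟩))
  refine (h2.dvd_of_dvd_mul_right h).trans ?_
  rw [Mk, mul_comm 4]
  exact mul_dvd_mul_left _ (mul_dvd_mul (two_dvd_centralBinom_of_one_le hk)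
    (two_dvd_centralBinom_of_one_le (by omega)) : 2 * 2 ∣ _)

end R1103
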